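import Pool.Agent.H729R2.Fin4

/-!
# Non-uniqueness of weak solutions for multifluid incompressible MHD

For every bounded open set `Ω ⊂ ℝ³`, every `T > 0` and every `δ > 0` there are data of the class
considered in the problem, with constant viscosity `1`, `u₀ = B₀ = 0` and a continuous density
`ρ₀` with `|ρ₀ - 1| ≤ δ`, for which there are two distinct weak solutions: the fluid at rest and a
solution with `u ≠ 0`.
-/

open MeasureTheory Pool.Agent.H729R2 Pool.Agent.H729R2.MHD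

namespace Pool.Agent.Results.MP_59296a_an.NonUnique

theorem result (Ω : Set R3) (hΩ : IsOpen Ω) (hbd : Bornology.IsBounded Ω) (hne : Ω.Nonempty)
    (T : ℝ) (hT : 0 < T) (δ : ℝ) (hδ : 0 < δ) (σ : ℝ → ℝ) (hσ : Coeff σ) :
    ∃ (ρ₀ : R3 → ℝ) (f : ℝ → R3 → R3) (ρ : ℝ → R3 → ℝ) (u : ℝ → R3 → R3),
      Continuous ρ₀ ∧ (∀ x, |ρ₀ x - 1| ≤ δ) ∧ IsData Ω T (fun _ => 1) σ ρ₀ 0 0 f ∧
      WeakSol Ω T (fun _ => 1) σ ρ₀ 0 0 f (fun _ => ρ₀) 0 0 ∧
      WeakSol Ω T (fun _ => 1) σ ρ₀ 0 0 f ρ u 0 ∧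
      ¬ ∀ᵐ z ∂(volume.restrict (Cyl Ω T)), u z.1 z.2 = 0 :=
  nonunique hΩ hbd hne hT hδ hσ

end Pool.Agent.Results.MP_59296a_an.NonUnique
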